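import Mathlib

/-!
# Signs, characters and representations of vectors as sums

`V` is a finite vector space over the field with two elements, `a` a family of linear functionals.
-/

set_option autoImplicit false

namespace Pool.Agent.K7.H42.KP

open Finset Module

/-- `(-1) ^ x` -/
def sg (x : ZMod 2) : ℤ := if x = 0 then 1 else -1

theorem sg_add (x y : ZMod 2) : sg (x + y) = sg x * sg y := by
  revert x y; decide

theorem sg_zero : sg 0 = 1 := rfl

theorem sg_mul_self (x : ZMod 2) : sg x * sg x = 1 := by revert x; decide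

theorem zmod2_cases (x : ZMod 2) : x = 0 ∨ x = 1 := by revert x; decide

section chars

variable {V : Type*} [AddCommGroup V] [Module (ZMod 2) V]

theorem add_self_zero (v : V) : v + v = 0 := by
  have : (2 : ZMod 2) • v = v + v := two_smul _ v
  rw [← this, show (2 : ZMod 2) = 0 by decide, zero_smul]

theorem eq_of_add_zero {v w : V} (h : v + w = 0) : v = w := by
  calc v = v + (w + w) := by rw [add_self_zero, add_zero]
    _ = (v + w) + w := by abel
    _ = w := by rw [h, zero_add]

theorem add_add_cancel' (v w : V) : v + w + w = v := by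
  rw [add_assoc, add_self_zero, add_zero]

variable [Fintype V]

open scoped Classical in
theorem sum_sg (φ : V →ₗ[ZMod 2] ZMod 2) :
    ∑ x, sg (φ x) = if φ = 0 then (Fintype.card V : ℤ) else 0 := by
  split_ifs with h
  · subst h
    simp [sg]
  · obtain ⟨v, hv⟩ : ∃ v, φ v ≠ 0 := by
      by_contra hc
      push Not at hc
      exact h (LinearMap.ext hc)
    have h1 : sg (φ v) = -1 := by simp [sg, hv]
    have h2 : ∑ x, sg (φ (x + v)) = ∑ x, sg (φ x) :=
      Fintype.sum_equiv (Equiv.addRight v) _ _ (fun _ => rfl)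
    have h3 : ∑ x, sg (φ (x + v)) = - ∑ x, sg (φ x) := by
      rw [← Finset.sum_neg_distrib]
      refine Finset.sum_congr rfl fun x _ => ?_
      rw [map_add, sg_add, h1]
      ring
    linarith

noncomputable instance dualFintype : Fintype (Dual (ZMod 2) V) :=
  haveI : Finite (Dual (ZMod 2) V) :=
    Finite.of_injective (fun φ : Dual (ZMod 2) V => (φ : V → ZMod 2)) DFunLike.coe_injective
  Fintype.ofFinite _

theorem card_dual : Fintype.card (Dual (ZMod 2) V) = Fintype.card V := by
  rw [Module.card_eq_pow_finrank (K := ZMod 2), Module.card_eq_pow_finrank (K := ZMod 2) (V := V),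
    Subspace.dual_finrank_eq]

theorem sum_sg_dual {x : V} (hx : x ≠ 0) : ∑ φ : Dual (ZMod 2) V, sg (φ x) = 0 := by
  classical
  have h := sum_sg (Module.Dual.eval (ZMod 2) V x)
  have h1 : Module.Dual.eval (ZMod 2) V x ≠ 0 := by
    intro h2
    exact hx ((Module.forall_dual_apply_eq_zero_iff (ZMod 2) x).1 fun φ => by
      have := LinearMap.congr_fun h2 φ
      simpa using this)
  rw [if_neg h1] at h
  simpa using h

variable {ι : Type*} [Fintype ι]

open scoped Classical in
/-- the number of ordered pairs with sum `φ` -/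
noncomputable def r2 (a : ι → Dual (ZMod 2) V) (φ : Dual (ZMod 2) V) : ℕ :=
  (univ.filter fun p : ι × ι => a p.1 + a p.2 = φ).card

/-- the number of ordered triples with sum `φ` -/
noncomputable def r3 (a : ι → Dual (ZMod 2) V) (φ : Dual (ZMod 2) V) : ℕ :=
  ∑ i, r2 a (φ + a i)

/-- the sum of the signs at `x` -/
def T (a : ι → Dual (ZMod 2) V) (x : V) : ℤ := ∑ i, sg (a i x)

omit [Fintype V] in
theorem T_zero (a : ι → Dual (ZMod 2) V) : T a 0 = Fintype.card ι := by
  simp [T, sg]

theorem T_sq (a : ι → Dual (ZMod 2) V) (x : V) :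
    T a x ^ 2 = ∑ φ, (r2 a φ : ℤ) * sg (φ x) := by
  classical
  have h1 : T a x ^ 2 = ∑ p : ι × ι, sg ((a p.1 + a p.2) x) := by
    rw [T, sq, Finset.sum_mul_sum, ← Finset.sum_product', univ_product_univ]
    refine Finset.sum_congr rfl fun p _ => ?_
    rw [LinearMap.add_apply, sg_add]
  rw [h1, ← Finset.sum_fiberwise univ (fun p : ι × ι => a p.1 + a p.2)]
  refine Finset.sum_congr rfl fun φ _ => ?_
  rw [Finset.sum_congr rfl (g := fun _ => sg (φ x)), Finset.sum_const, nsmul_eq_mul]
  · unfold r2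
    congr
  · intro p hp
    rw [(Finset.mem_filter.1 hp).2]

theorem T_cube (a : ι → Dual (ZMod 2) V) (x : V) :
    T a x ^ 3 = ∑ φ, (r3 a φ : ℤ) * sg (φ x) := by
  have h1 : T a x ^ 3 = ∑ i, sg (a i x) * ∑ φ, (r2 a φ : ℤ) * sg (φ x) := by
    rw [← Finset.sum_mul, ← T_sq, show (∑ i, sg (a i x)) = T a x from rfl]
    ring
  rw [h1]
  have h2 : ∀ i, sg (a i x) * ∑ φ, (r2 a φ : ℤ) * sg (φ x) =
      ∑ φ, (r2 a (φ + a i) : ℤ) * sg (φ x) := by
    intro i
    rw [Finset.mul_sum]
    refine Fintype.sum_equiv (Equiv.addRight (a i)) _ _ fun φ => ?_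
    rw [Equiv.coe_addRight, add_add_cancel', LinearMap.add_apply, sg_add]
    ring
  rw [Finset.sum_congr rfl fun i _ => h2 i, Finset.sum_comm]
  refine Finset.sum_congr rfl fun φ _ => ?_
  rw [← Finset.sum_mul, r3]
  push_cast
  rfl

/-- `r2` is even away from zero -/
theorem r2_even (a : ι → Dual (ZMod 2) V) {φ : Dual (ZMod 2) V} (hφ : φ ≠ 0) : Even (r2 a φ) := by
  classical
  have h : ((r2 a φ : ℕ) : ZMod 2) = 0 := by
    unfold r2
    rw [Finset.card_eq_sum_ones]
    push_cast
    refine Finset.sum_involution (fun p _ => (p.2, p.1)) (fun _ _ => by decide) ?_ ?_ ?_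
    · intro p hp _ h
      have h1 : p.2 = p.1 := congrArg Prod.fst h
      have h2 := (Finset.mem_filter.1 hp).2
      rw [h1, add_self_zero] at h2
      exact hφ h2.symm
    · intro p hp
      simp only [Finset.mem_filter, Finset.mem_univ, true_and] at hp ⊢
      rw [add_comm]
      exact hp
    · intro p _
      rfl
  exact (ZMod.natCast_eq_zero_iff_even).1 h

theorem r2_zero_ge (a : ι → Dual (ZMod 2) V) : Fintype.card ι ≤ r2 a 0 := by
  classical
  unfold r2
  calc Fintype.card ι = ((univ : Finset ι).map ⟨fun i => (i, i), fun i j h => congrArg Prod.fst h⟩).card := by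
        rw [Finset.card_map, Finset.card_univ]
    _ ≤ _ := by
        refine Finset.card_le_card fun p hp => ?_
        obtain ⟨i, _, rfl⟩ := Finset.mem_map.1 hp
        simp [add_self_zero]

theorem sum_r2 (a : ι → Dual (ZMod 2) V) : ∑ φ, (r2 a φ : ℤ) = (Fintype.card ι : ℤ) ^ 2 := by
  have h := T_sq a (0 : V)
  rw [T_zero] at h
  simpa [sg] using h.symm

theorem sum_r3 (a : ι → Dual (ZMod 2) V) : ∑ φ, (r3 a φ : ℤ) = (Fintype.card ι : ℤ) ^ 3 := by
  have h := T_cube a (0 : V)
  rw [T_zero] at h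
  simpa [sg] using h.symm

theorem r3_eq_card (a : ι → Dual (ZMod 2) V) (φ : Dual (ZMod 2) V) :
    r3 a φ = Nat.card {t : ι × ι × ι // a t.1 + a t.2.1 + a t.2.2 = φ} := by
  classical
  rw [Nat.card_eq_fintype_card, Fintype.card_subtype, Finset.card_filter, Fintype.sum_prod_type,
    r3]
  refine Finset.sum_congr rfl fun i _ => ?_
  unfold r2
  rw [Finset.card_filter]
  refine Finset.sum_congr rfl fun p _ => if_congr ?_ rfl rfl
  constructor
  · intro h
    rw [add_assoc, h, add_comm φ, ← add_assoc, add_self_zero, zero_add]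
  · intro h
    show a p.1 + a p.2 = φ + a i
    rw [← h, show a (i, p).1 + a (i, p).2.1 + a (i, p).2.2 + a i = a p.1 + a p.2 + a i + a i by
      show a i + a p.1 + a p.2 + a i = _
      abel, add_add_cancel']

theorem r3_dvd (a : ι → Dual (ZMod 2) V) {φ : Dual (ZMod 2) V} (hφ : ∀ i, a i ≠ φ) :
    3 ∣ r3 a φ := by
  classical
  rw [r3_eq_card, Nat.card_eq_fintype_card]
  let S := {t : ι × ι × ι // a t.1 + a t.2.1 + a t.2.2 = φ}
  let f : Function.End S := fun t => ⟨(t.1.2.1, t.1.2.2, t.1.1), by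
    refine Eq.trans ?_ t.2
    show a t.1.2.1 + a t.1.2.2 + a t.1.1 = _
    abel⟩
  have hf : f ^ 3 ^ 1 = 1 := by
    funext t
    rfl
  have : Fact (Nat.Prime 3) := ⟨Nat.prime_three⟩
  have h := Equiv.Perm.card_fixedPoints_modEq hf
  have h0 : Fintype.card f.fixedPoints = 0 := by
    rw [Fintype.card_eq_zero_iff]
    refine ⟨fun t => ?_⟩
    have h1 : f t.1 = t.1 := t.2
    have h2 : (f t.1).1 = t.1.1 := congrArg Subtype.val h1
    have h3 : t.1.1.2.1 = t.1.1.1 := congrArg Prod.fst h2
    have h4 : t.1.1.2.2 = t.1.1.2.1 := congrArg (fun x => x.2.1) h2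
    have h5 := t.1.2
    rw [h4, h3, add_self_zero, zero_add] at h5
    exact hφ _ h5
  rw [h0] at h
  exact (Nat.modEq_zero_iff_dvd).1 h

end chars

end Pool.Agent.K7.H42.KP
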