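import Pool.Agent.K7.H42.KP.Sidon

/-!
# No linear code has the parameters of the Kerdock codes

`V` is the code, `a i` is the `i`-th coordinate; `T a c` is the length minus twice the weight of `c`.
-/

set_option autoImplicit false

namespace Pool.Agent.K7.H42.KP

open Finset Module

variable {V : Type*} [AddCommGroup V] [Module (ZMod 2) V] [Fintype V]
variable {ι : Type*} [Fintype ι] {a : ι → Dual (ZMod 2) V}

/-! ### moments -/

theorem sum_hat (w : Dual (ZMod 2) V → ℤ) :
    ∑ x : V, ∑ φ, w φ * sg (φ x) = Fintype.card V * w 0 := by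
  classical
  rw [Finset.sum_comm]
  have h1 : ∀ φ : Dual (ZMod 2) V, ∑ x : V, w φ * sg (φ x) =
      if φ = 0 then (Fintype.card V : ℤ) * w 0 else 0 := by
    intro φ
    rw [← Finset.mul_sum, sum_sg]
    by_cases h0 : φ = 0
    · subst h0
      rw [if_pos rfl, if_pos rfl, mul_comm]
    · rw [if_neg h0, if_neg h0, mul_zero]
  rw [Finset.sum_congr rfl fun φ _ => h1 φ]
  simp

theorem sum_hat_sq (w : Dual (ZMod 2) V → ℤ) :
    ∑ x : V, (∑ φ, w φ * sg (φ x)) ^ 2 = Fintype.card V * ∑ φ, w φ ^ 2 := by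
  classical
  have h1 : ∀ x : V, (∑ φ, w φ * sg (φ x)) ^ 2 = ∑ χ, (∑ φ, w φ * w (χ + φ)) * sg (χ x) := by
    intro x
    rw [sq, Finset.sum_mul_sum]
    simp only [Finset.sum_mul]
    symm
    rw [Finset.sum_comm]
    refine Finset.sum_congr rfl fun φ _ => ?_
    refine Fintype.sum_equiv (Equiv.addRight φ) _ _ fun χ => ?_
    rw [Equiv.coe_addRight]
    show w φ * w (χ + φ) * sg (χ x) = w φ * sg (φ x) * (w (χ + φ) * sg ((χ + φ) x))
    rw [LinearMap.add_apply, sg_add]
    have h2 := sg_mul_self (φ x)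
    linear_combination (-(w φ * w (χ + φ) * sg (χ x))) * h2
  rw [Finset.sum_congr rfl fun x _ => h1 x, sum_hat]
  congr 1
  refine Finset.sum_congr rfl fun φ _ => ?_
  rw [zero_add, sq]

theorem sum_T1 : ∑ x, T a x = Fintype.card V * mult a 0 := by
  rw [Finset.sum_congr rfl fun x _ => (sum_mult (a := a) x).symm, sum_hat]

theorem sum_T2 : ∑ x, T a x ^ 2 = Fintype.card V * r2 a 0 := by
  rw [Finset.sum_congr rfl fun x _ => T_sq a x, sum_hat]

theorem sum_T3 : ∑ x, T a x ^ 3 = Fintype.card V * r3 a 0 := by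
  rw [Finset.sum_congr rfl fun x _ => T_cube a x, sum_hat]

theorem sum_T4 : ∑ x, T a x ^ 4 = Fintype.card V * ∑ φ, (r2 a φ : ℤ) ^ 2 := by
  rw [← sum_hat_sq]
  refine Finset.sum_congr rfl fun x _ => ?_
  rw [← T_sq]
  ring

theorem r3_zero_ge (a : ι → Dual (ZMod 2) V) : Fintype.card ι * mult a 0 ≤ r3 a 0 := by
  classical
  unfold r3 mult
  calc Fintype.card ι * (univ.filter fun i => a i = 0).card
      = ∑ i ∈ univ.filter (fun i => a i = 0), Fintype.card ι := by
        rw [Finset.sum_const, smul_eq_mul, mul_comm]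
    _ ≤ ∑ i ∈ univ.filter (fun i => a i = 0), r2 a (0 + a i) := by
        refine Finset.sum_le_sum fun i hi => ?_
        rw [(Finset.mem_filter.1 hi).2, add_zero]
        exact r2_zero_ge a
    _ ≤ _ := Finset.sum_le_sum_of_subset (Finset.filter_subset _ _)

theorem r2_sq_ge (a : ι → Dual (ZMod 2) V) {φ : Dual (ZMod 2) V} (hφ : φ ≠ 0) :
    2 * (r2 a φ : ℤ) ≤ (r2 a φ : ℤ) ^ 2 := by
  obtain ⟨k, hk⟩ := r2_even a hφ
  rw [hk]
  push_cast
  rcases Nat.eq_zero_or_pos k with h | h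
  · subst h
    norm_num
  · have : (1 : ℤ) ≤ k := by exact_mod_cast h
    nlinarith

theorem fourth_ge (a : ι → Dual (ZMod 2) V) :
    (r2 a 0 : ℤ) ^ 2 + 2 * ((Fintype.card ι : ℤ) ^ 2 - r2 a 0) ≤ ∑ φ, (r2 a φ : ℤ) ^ 2 := by
  classical
  have h1 := sum_r2 a
  rw [← Finset.add_sum_erase univ _ (Finset.mem_univ 0)] at h1 ⊢
  have h2 : ∑ φ ∈ univ.erase 0, 2 * (r2 a φ : ℤ) ≤ ∑ φ ∈ univ.erase 0, (r2 a φ : ℤ) ^ 2 :=
    Finset.sum_le_sum fun φ hφ => r2_sq_ge a (Finset.ne_of_mem_erase hφ)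
  rw [← Finset.mul_sum] at h2
  linarith

/-- the linear programming bound -/
theorem poly_sum {q N : ℤ} (hq : 1 ≤ q) (hN : q ≤ N) (hn : (Fintype.card ι : ℤ) = q ^ 2) :
    (Fintype.card V : ℤ) * (2 * q ^ 4 - 2 * q ^ 2) ≤
      ∑ x, (T a x - q) * (T a x + N) * (T a x + q) ^ 2 := by
  have h1 : ∑ x, (T a x - q) * (T a x + N) * (T a x + q) ^ 2 =
      ∑ x, T a x ^ 4 + (N + q) * ∑ x, T a x ^ 3 + (q * N - q ^ 2) * ∑ x, T a x ^ 2 -
        q ^ 2 * (N + q) * ∑ x, T a x - ∑ _x : V, N * q ^ 3 := by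
    rw [Finset.mul_sum, Finset.mul_sum, Finset.mul_sum, ← Finset.sum_add_distrib,
      ← Finset.sum_add_distrib, ← Finset.sum_sub_distrib, ← Finset.sum_sub_distrib]
    refine Finset.sum_congr rfl fun x _ => ?_
    ring
  rw [h1, sum_T1, sum_T2, sum_T3, sum_T4, Finset.sum_const, Finset.card_univ, nsmul_eq_mul]
  have h3 : q ^ 2 * (mult a 0 : ℤ) ≤ r3 a 0 := by
    rw [← hn]
    exact_mod_cast r3_zero_ge a
  have h2 : q ^ 2 ≤ (r2 a 0 : ℤ) := by
    rw [← hn]
    exact_mod_cast r2_zero_ge a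
  have h4 := fourth_ge a
  rw [hn] at h4
  have h5 : 2 * q ^ 4 - 2 * q ^ 2 ≤ ∑ φ, (r2 a φ : ℤ) ^ 2 + (N + q) * (r3 a 0 : ℤ) +
      (q * N - q ^ 2) * (r2 a 0 : ℤ) - q ^ 2 * (N + q) * (mult a 0 : ℤ) - N * q ^ 3 := by
    have e1 : 0 ≤ (N + q) * ((r3 a 0 : ℤ) - q ^ 2 * mult a 0) :=
      mul_nonneg (by linarith) (by linarith)
    have e2 : 0 ≤ (q * (N - q)) * ((r2 a 0 : ℤ) - q ^ 2) :=
      mul_nonneg (mul_nonneg (by linarith) (by linarith)) (by linarith)
    have e3 : 3 * q ^ 4 - 2 * q ^ 2 ≤ (r2 a 0 : ℤ) ^ 2 + 2 * ((q ^ 2) ^ 2 - r2 a 0) := by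
      have : 0 ≤ ((r2 a 0 : ℤ) - q ^ 2) * ((r2 a 0 : ℤ) + q ^ 2 - 2) := by
        refine mul_nonneg (by linarith) ?_
        nlinarith
      nlinarith
    nlinarith
  have hV : (0 : ℤ) ≤ Fintype.card V := Int.natCast_nonneg _
  have h6 := mul_le_mul_of_nonneg_left h5 hV
  linarith

theorem poly_ineq {q D y : ℤ} (hq : 8 ≤ q) (hD : 2 * D = q ^ 2 - q) (hy : 2 ≤ y) (hyD : y ≤ D) :
    (q ^ 2 - q) * (q ^ 2 + q + y) * (q ^ 2 + q) ^ 2 +
      (y - q ^ 2 - q) * (y - q ^ 2 + q + y) * (y - q ^ 2 + q) ^ 2 < q ^ 4 * (2 * q ^ 4 - 2 * q ^ 2) := by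
  have h7 : 7 * q ≤ 2 * D := by nlinarith
  have hq2 : q ^ 2 = 2 * D + q := by linarith
  obtain ⟨z, hz⟩ : ∃ z, z = D - y := ⟨_, rfl⟩
  have hy' : y = D - z := by linarith
  have hz0 : 0 ≤ z := by linarith
  have hz2 : z ≤ D - 2 := by linarith
  have hD28 : 28 ≤ D := by linarith
  -- bound for the cubic factor
  have hv : (D + z) ^ 2 * (D + z + 2 * q) ≤ (2 * D - 2) ^ 2 * (2 * D - 2 + 2 * q) := by
    have h1 : 0 ≤ D + z := by linarith
    have h2 : D + z ≤ 2 * D - 2 := by linarith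
    have h3 : (D + z) ^ 2 ≤ (2 * D - 2) ^ 2 := by nlinarith
    have h4 : D + z + 2 * q ≤ 2 * D - 2 + 2 * q := by linarith
    have h5 : 0 ≤ D + z + 2 * q := by linarith
    exact mul_le_mul h3 h4 h5 (by positivity)
  have hα : 0 < D ^ 2 - D * q - q ^ 2 := by
    rw [hq2]
    nlinarith
  have hfin : 0 < 4 * D * (D + q) * (D ^ 2 - D * q - q ^ 2 + (D + q) * z) -
      z * ((D + z) ^ 2 * (D + z + 2 * q)) := by
    have h1 : z * ((D + z) ^ 2 * (D + z + 2 * q)) ≤ z * ((2 * D - 2) ^ 2 * (2 * D - 2 + 2 * q)) :=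
      mul_le_mul_of_nonneg_left hv hz0
    have hα' : 0 < 4 * D * (D + q) * (D ^ 2 - D * q - q ^ 2) := by positivity
    have hend : 0 < 4 * D * (D + q) * (D ^ 2 - D * q - q ^ 2) +
        (D - 2) * (4 * D * (D + q) ^ 2 - (2 * D - 2) ^ 2 * (2 * D - 2 + 2 * q)) := by
      have e1 : 4 * D * (D + q) * (D ^ 2 - D * q - q ^ 2) +
        (D - 2) * (4 * D * (D + q) ^ 2 - (2 * D - 2) ^ 2 * (2 * D - 2 + 2 * q)) =
        4 * (6 * D ^ 3 + (q - 24) * D ^ 2 - (13 * q - 14) * D + 4 * q - 4) := by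
        have e2 : q ^ 3 = 2 * D * q + 2 * D + q := by
          calc q ^ 3 = q * q ^ 2 := by ring
            _ = _ := by rw [hq2]; linear_combination hq2
        linear_combination (-4 * D ^ 2 - 8 * D) * hq2 + (-4 * D) * e2
      rw [e1]
      have e3 : 0 ≤ D * (D - 28) := mul_nonneg (by linarith) (by linarith)
      have e4 : 0 ≤ D ^ 2 * (D - 28) := mul_nonneg (by positivity) (by linarith)
      have e5 : 0 ≤ D * (2 * D - 7 * q) := mul_nonneg (by linarith) (by linarith)
      nlinarith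
    rcases le_total 0 (4 * D * (D + q) ^ 2 - (2 * D - 2) ^ 2 * (2 * D - 2 + 2 * q)) with hβ | hβ
    · have := mul_nonneg hz0 hβ
      nlinarith
    · have : (D - 2) * (4 * D * (D + q) ^ 2 - (2 * D - 2) ^ 2 * (2 * D - 2 + 2 * q)) ≤
        z * (4 * D * (D + q) ^ 2 - (2 * D - 2) ^ 2 * (2 * D - 2 + 2 * q)) :=
        mul_le_mul_of_nonpos_right hz2 hβ
      nlinarith
  have hid : q ^ 4 * (2 * q ^ 4 - 2 * q ^ 2) - ((q ^ 2 - q) * (q ^ 2 + q + y) * (q ^ 2 + q) ^ 2 +
      (y - q ^ 2 - q) * (y - q ^ 2 + q + y) * (y - q ^ 2 + q) ^ 2) =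
      2 * (4 * D * (D + q) * (D ^ 2 - D * q - q ^ 2 + (D + q) * z) -
      z * ((D + z) ^ 2 * (D + z + 2 * q))) := by
    have e6 : q ^ 4 = (2 * D + q) ^ 2 := by rw [← hq2]; ring
    have e7 : q ^ 4 * (2 * q ^ 4 - 2 * q ^ 2) = (2 * D + q) ^ 2 * (2 * (2 * D + q) ^ 2 - 2 * (2 * D + q)) := by
      rw [e6, hq2]
    rw [e7, hq2, hy']
    have e8 : (2 * D + q) * (2 * D + q - 1) = 2 * D * (2 * D + 2 * q) := by
      linear_combination hq2
    linear_combination (2 * (2 * D + q) ^ 2) * e8 + (-8 * D * q - 8 * D ^ 2) * hq2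
  linarith

theorem T_parity (x : V) : ∃ e : ℤ, T a x = Fintype.card ι - 2 * e := by
  classical
  refine ⟨(univ.filter fun i => a i x ≠ 0).card, ?_⟩
  have h1 : ∀ i, sg (a i x) = 1 - 2 * (if a i x ≠ 0 then (1 : ℤ) else 0) := by
    intro i
    unfold sg
    by_cases h : a i x = 0
    · simp [h]
    · simp [h]
  rw [T, Finset.sum_congr rfl fun i _ => h1 i, Finset.sum_sub_distrib, ← Finset.mul_sum,
    Finset.sum_boole]
  simp

/-- an inequality between the sums of signs of two vectors and of their sum -/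
theorem T_triangle (x y : V) : 0 ≤ Fintype.card ι + T a x + T a y + T a (x + y) := by
  have h1 : (Fintype.card ι : ℤ) + T a x + T a y + T a (x + y) =
      ∑ i, (1 + sg (a i x)) * (1 + sg (a i y)) := by
    have h2 : (Fintype.card ι : ℤ) = ∑ _i : ι, (1 : ℤ) := by simp
    rw [h2, T, T, T, ← Finset.sum_add_distrib, ← Finset.sum_add_distrib, ← Finset.sum_add_distrib]
    refine Finset.sum_congr rfl fun i _ => ?_
    rw [map_add, sg_add]
    ring
  rw [h1]
  refine Finset.sum_nonneg fun i _ => ?_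
  unfold sg
  split_ifs <;> norm_num

/-- the fourth moment of a code with the parameters of a Kerdock code which contains the all-one
word -/
theorem sid_of_allone {q : ℤ} (hq : 2 ≤ q) (hn : (Fintype.card ι : ℤ) = q ^ 2)
    (hV : (Fintype.card V : ℤ) = q ^ 4)
    (h1 : ∀ c : V, c ≠ 0 → T a c ≤ q) {c0 : V} (h0 : T a c0 = -q ^ 2) : Sid a := by
  classical
  have hc0 : c0 ≠ 0 := by
    rintro rfl
    rw [T_zero, hn] at h0
    nlinarith
  have hlow : ∀ c : V, c ≠ 0 → c ≠ c0 → T a c ^ 2 ≤ q ^ 2 := by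
    intro c hc hcc
    have h2 := T_triangle (a := a) c c0
    have h3 : T a (c + c0) ≤ q := h1 _ fun h => hcc (eq_of_add_zero h)
    rw [hn, h0] at h2
    have h4 := h1 c hc
    nlinarith
  have hsum : ∑ x, (T a x ^ 4 - q ^ 2 * T a x ^ 2) ≤ 2 * (q ^ 8 - q ^ 6) := by
    rw [← Finset.add_sum_erase univ _ (Finset.mem_univ (0 : V)),
      ← Finset.add_sum_erase (univ.erase 0) _ (Finset.mem_erase.2 ⟨hc0, Finset.mem_univ c0⟩)]
    have h2 : ∑ x ∈ (univ.erase 0).erase c0, (T a x ^ 4 - q ^ 2 * T a x ^ 2) ≤ 0 := by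
      refine Finset.sum_nonpos fun x hx => ?_
      rw [Finset.mem_erase, Finset.mem_erase] at hx
      have h3 := hlow x hx.2.1 hx.1
      have h4 : 0 ≤ T a x ^ 2 := sq_nonneg _
      nlinarith
    rw [T_zero, hn, h0]
    nlinarith
  rw [Finset.sum_sub_distrib, ← Finset.mul_sum, sum_T4, sum_T2, hV] at hsum
  have hP : q ^ 2 ≤ (r2 a 0 : ℤ) := by
    rw [← hn]
    exact_mod_cast r2_zero_ge a
  have h4 := fourth_ge a
  rw [hn] at h4
  have hq4 : 0 < q ^ 4 := by positivity
  have hs : ∑ φ, (r2 a φ : ℤ) ^ 2 ≤ q ^ 2 * r2 a 0 + 2 * q ^ 4 - 2 * q ^ 2 := by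
    have : q ^ 4 * ∑ φ, (r2 a φ : ℤ) ^ 2 ≤ q ^ 4 * (q ^ 2 * r2 a 0 + 2 * q ^ 4 - 2 * q ^ 2) := by
      nlinarith
    exact le_of_mul_le_mul_left this hq4
  have hq2 : 4 ≤ q ^ 2 := by nlinarith
  have hPn : (r2 a 0 : ℤ) = q ^ 2 := by
    refine le_antisymm ?_ hP
    by_contra hlt
    push Not at hlt
    have : 0 < ((r2 a 0 : ℤ) - q ^ 2) * ((r2 a 0 : ℤ) - 2) := mul_pos (by linarith) (by linarith)
    nlinarith
  -- all values of `r2` away from zero are at most two
  have hle : ∀ φ ∈ (univ : Finset (Dual (ZMod 2) V)).erase 0,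
      2 * (r2 a φ : ℤ) ≤ (r2 a φ : ℤ) ^ 2 := fun φ hφ => r2_sq_ge a (Finset.ne_of_mem_erase hφ)
  have heq : ∑ φ ∈ (univ : Finset (Dual (ZMod 2) V)).erase 0, 2 * (r2 a φ : ℤ) =
      ∑ φ ∈ (univ : Finset (Dual (ZMod 2) V)).erase 0, (r2 a φ : ℤ) ^ 2 := by
    refine le_antisymm (Finset.sum_le_sum hle) ?_
    have e1 := sum_r2 a
    rw [← Finset.add_sum_erase univ _ (Finset.mem_univ 0), hn, hPn] at e1
    rw [← Finset.add_sum_erase univ _ (Finset.mem_univ 0), hPn] at hs
    rw [← Finset.mul_sum]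
    nlinarith
  have hr2 : ∀ φ : Dual (ZMod 2) V, φ ≠ 0 → r2 a φ ≤ 2 := by
    intro φ hφ
    have h5 := (Finset.sum_eq_sum_iff_of_le hle).1 heq φ (Finset.mem_erase.2 ⟨hφ, Finset.mem_univ _⟩)
    have h6 : (r2 a φ : ℤ) * ((r2 a φ : ℤ) - 2) = 0 := by linear_combination -h5
    rcases mul_eq_zero.1 h6 with h7 | h7
    · have : r2 a φ = 0 := by exact_mod_cast h7
      omega
    · have : (r2 a φ : ℤ) ≤ 2 := by linarith
      exact_mod_cast this
  have hinj : Function.Injective a := by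
    intro i j hij
    by_contra hne
    have h5 : Fintype.card ι + 1 ≤ r2 a 0 := by
      unfold r2
      calc Fintype.card ι + 1 = (insert (i, j) ((univ : Finset ι).image fun i => (i, i))).card := by
            rw [Finset.card_insert_of_notMem, Finset.card_image_of_injective, Finset.card_univ]
            · intro x y h
              exact congrArg Prod.fst h
            · rw [Finset.mem_image]
              rintro ⟨l, _, hl⟩
              exact hne ((congrArg Prod.fst hl).symm.trans (congrArg Prod.snd hl))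
        _ ≤ _ := by
            refine Finset.card_le_card fun p hp => ?_
            rw [Finset.mem_filter]
            refine ⟨Finset.mem_univ _, ?_⟩
            rcases Finset.mem_insert.1 hp with rfl | hp
            · show a i + a j = 0
              rw [hij, add_self_zero]
            · obtain ⟨l, _, rfl⟩ := Finset.mem_image.1 hp
              exact add_self_zero _
    have h6 : (Fintype.card ι : ℤ) + 1 ≤ r2 a 0 := by exact_mod_cast h5
    rw [hn, hPn] at h6
    linarith
  refine ⟨hinj, fun i j k l hij hik hil hjk hjl hkl h => ?_⟩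
  have hφ : a i + a j ≠ 0 := fun h5 => hij (hinj (eq_of_add_zero h5))
  have h5 := hr2 _ hφ
  have h6 : a k + a l = a i + a j := by
    refine (eq_of_add_zero ?_).symm
    rw [← h]
    abel
  have h7 : ({(i, j), (j, i), (k, l)} : Finset (ι × ι)).card ≤ r2 a (a i + a j) := by
    unfold r2
    refine Finset.card_le_card fun p hp => ?_
    rw [Finset.mem_filter]
    refine ⟨Finset.mem_univ _, ?_⟩
    simp only [Finset.mem_insert, Finset.mem_singleton] at hp
    rcases hp with rfl | rfl | rfl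
    · rfl
    · exact add_comm _ _
    · exact h6
  have h8 : ({(i, j), (j, i), (k, l)} : Finset (ι × ι)).card = 3 := by
    rw [Finset.card_eq_three]
    exact ⟨_, _, _, by simp [hij], by simp [hik], by simp [hjk], rfl⟩
  omega

/-- a subset of the Kerdock type contains the all-one word -/
theorem exists_allone {k : ℕ} (hk : 3 ≤ k) (hn : Fintype.card ι = 4 ^ k)
    (hV : Fintype.card V = Fintype.card ι ^ 2)
    (h1 : ∀ c : V, c ≠ 0 → T a c ≤ 2 ^ k) : ∃ c0 : V, T a c0 = -(2 ^ k) ^ 2 := by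
  classical
  obtain ⟨q, hqdef⟩ : ∃ q : ℤ, q = 2 ^ k := ⟨_, rfl⟩
  rw [← hqdef] at h1 ⊢
  obtain ⟨j, rfl⟩ : ∃ j, k = j + 3 := ⟨k - 3, by omega⟩
  have hj : (1 : ℤ) ≤ 2 ^ j := by exact_mod_cast Nat.one_le_two_pow
  have hq8 : 8 ≤ q := by
    rw [hqdef, pow_add]
    linarith
  have hn' : (Fintype.card ι : ℤ) = q ^ 2 := by
    rw [hn, hqdef]
    push_cast
    rw [← pow_mul, mul_comm (j + 3) 2, pow_mul]
    norm_num
  have hV' : (Fintype.card V : ℤ) = q ^ 4 := by
    rw [hV]
    push_cast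
    rw [hn']
    ring
  obtain ⟨D, hD⟩ : ∃ D : ℤ, 2 * D = q ^ 2 - q := by
    refine ⟨(4 * 2 ^ j) * (q - 1), ?_⟩
    have : q = 2 * (4 * 2 ^ j) := by
      rw [hqdef, pow_add]
      ring
    linear_combination (1 - q) * this
  have hD28 : 28 ≤ D := by nlinarith
  by_cases hA : ∃ c0 : V, T a c0 < -(D + q)
  · obtain ⟨c0, hc0⟩ := hA
    have hlow := T_triangle (a := a) c0 c0
    obtain ⟨e, he⟩ := T_parity (a := a) c0
    have hc00 : c0 ≠ 0 := by
      rintro rfl
      rw [T_zero, hn'] at hc0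
      nlinarith
    -- `T a c0 ≥ -n`
    have hge : 0 ≤ (Fintype.card ι : ℤ) + T a c0 := by
      have h2 : (Fintype.card ι : ℤ) + T a c0 = ∑ i, (1 + sg (a i c0)) := by
        rw [Finset.sum_add_distrib, T]
        simp
      rw [h2]
      refine Finset.sum_nonneg fun i _ => ?_
      unfold sg
      split_ifs <;> norm_num
    rw [hn'] at he hge
    obtain ⟨y, hy⟩ : ∃ y, y = q ^ 2 + T a c0 := ⟨_, rfl⟩
    rcases eq_or_lt_of_le hge with hy0 | hy0
    · exact ⟨c0, by linarith⟩
    exfalso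
    have hy2 : 2 ≤ y := by omega
    have hyD : y ≤ D := by linarith
    have hT0 : T a c0 = y - q ^ 2 := by linarith
    have hup := poly_sum (V := V) (a := a) (q := q) (N := q + y) (by linarith) (by linarith) hn'
    have hsum : ∑ x, (T a x - q) * (T a x + (q + y)) * (T a x + q) ^ 2 ≤
        (q ^ 2 - q) * (q ^ 2 + q + y) * (q ^ 2 + q) ^ 2 +
        (y - q ^ 2 - q) * (y - q ^ 2 + q + y) * (y - q ^ 2 + q) ^ 2 := by
      rw [← Finset.add_sum_erase univ _ (Finset.mem_univ (0 : V)),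
        ← Finset.add_sum_erase (univ.erase 0) _ (Finset.mem_erase.2 ⟨hc00, Finset.mem_univ c0⟩)]
      have h2 : ∑ x ∈ (univ.erase 0).erase c0,
          (T a x - q) * (T a x + (q + y)) * (T a x + q) ^ 2 ≤ 0 := by
        refine Finset.sum_nonpos fun x hx => ?_
        rw [Finset.mem_erase, Finset.mem_erase] at hx
        have h3 := T_triangle (a := a) x c0
        have h4 : T a (x + c0) ≤ q := h1 _ fun h => hx.1 (eq_of_add_zero h)
        have h5 := h1 x hx.2.1
        rw [hn', hT0] at h3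
        have h6 : 0 ≤ T a x + (q + y) := by linarith
        have h7 : T a x - q ≤ 0 := by linarith
        have h8 := mul_nonpos_of_nonpos_of_nonneg h7 h6
        exact mul_nonpos_of_nonpos_of_nonneg h8 (sq_nonneg _)
      rw [T_zero, hn', hT0]
      linarith
    have h9 := poly_ineq hq8 hD hy2 hyD
    rw [hV'] at hup
    linarith
  · exfalso
    push Not at hA
    have hup := poly_sum (V := V) (a := a) (q := q) (N := D + q) (by linarith) (by linarith) hn'
    have hsum : ∑ x, (T a x - q) * (T a x + (D + q)) * (T a x + q) ^ 2 ≤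
        (q ^ 2 - q) * (q ^ 2 + q + D) * (q ^ 2 + q) ^ 2 := by
      rw [← Finset.add_sum_erase univ _ (Finset.mem_univ (0 : V))]
      have h2 : ∑ x ∈ univ.erase 0,
          (T a x - q) * (T a x + (D + q)) * (T a x + q) ^ 2 ≤ 0 := by
        refine Finset.sum_nonpos fun x hx => ?_
        rw [Finset.mem_erase] at hx
        have h5 := h1 x hx.1
        have h6 : 0 ≤ T a x + (D + q) := by linarith [hA x]
        have h7 : T a x - q ≤ 0 := by linarith
        have h8 := mul_nonpos_of_nonpos_of_nonneg h7 h6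
        exact mul_nonpos_of_nonpos_of_nonneg h8 (sq_nonneg _)
      rw [T_zero, hn']
      have h10 : (q ^ 2 - q) * (q ^ 2 + (D + q)) * (q ^ 2 + q) ^ 2 =
        (q ^ 2 - q) * (q ^ 2 + q + D) * (q ^ 2 + q) ^ 2 := by ring
      linarith
    have h9 := poly_ineq hq8 hD (show 2 ≤ D by linarith) le_rfl
    have h10 : D - q ^ 2 + q + D = 0 := by linarith
    rw [h10, mul_zero, zero_mul, add_zero] at h9
    rw [hV'] at hup
    linarith

/-- there is no linear code with the parameters of a Kerdock code of length at least `64` -/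
theorem kerd {k : ℕ} (hk : 3 ≤ k) (hn : Fintype.card ι = 4 ^ k)
    (hV : Fintype.card V = Fintype.card ι ^ 2)
    (h1 : ∀ c : V, c ≠ 0 → T a c ≤ 2 ^ k) : False := by
  classical
  obtain ⟨c0, hc0⟩ := exists_allone hk hn hV h1
  have hn' : (Fintype.card ι : ℤ) = (2 ^ k) ^ 2 := by
    rw [hn]
    push_cast
    rw [← pow_mul, mul_comm k 2, pow_mul]
    norm_num
  have hV' : (Fintype.card V : ℤ) = (2 ^ k) ^ 4 := by
    rw [hV]
    push_cast
    rw [hn']
    ring
  have hq : (2 : ℤ) ≤ 2 ^ k := by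
    calc (2 : ℤ) = 2 ^ 1 := (pow_one _).symm
      _ ≤ 2 ^ k := pow_le_pow_right₀ (by norm_num) (by omega)
  have hS := sid_of_allone hq hn' hV' h1 hc0
  -- all coordinates of `c0` are one
  have hall : ∀ i, a i c0 = 1 := by
    have h2 : ∑ i, (1 + sg (a i c0)) = 0 := by
      rw [Finset.sum_add_distrib, show ∑ i, sg (a i c0) = T a c0 from rfl, hc0, ← hn']
      simp
    intro i
    have h3 := (Finset.sum_eq_zero_iff_of_nonneg (fun i _ => by
      unfold sg
      split_ifs <;> norm_num)).1 h2 i (Finset.mem_univ i)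
    rcases zmod2_cases (a i c0) with h4 | h4
    · rw [h4] at h3
      simp [sg] at h3
    · exact h4
  have hpos : 0 < Fintype.card ι := by
    rw [hn]
    positivity
  obtain ⟨i0⟩ := Fintype.card_pos_iff.1 hpos
  let U := LinearMap.ker (a i0)
  have hdec : ∀ x : V, x ∈ U ∨ x + c0 ∈ U := by
    intro x
    rcases zmod2_cases (a i0 x) with h | h
    · exact Or.inl h
    · refine Or.inr ?_
      show a i0 (x + c0) = 0
      rw [map_add, h, hall]
      decide
  -- a functional which vanishes on `U` and at `c0` is zero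
  have hzero : ∀ φ : Dual (ZMod 2) V, φ.comp U.subtype = 0 → φ c0 = 0 → φ = 0 := by
    intro φ hφ h0
    ext x
    rcases hdec x with h | h
    · exact LinearMap.congr_fun hφ ⟨x, h⟩
    · have h2 : φ (x + c0) = 0 := LinearMap.congr_fun hφ ⟨x + c0, h⟩
      rw [map_add, h0, add_zero] at h2
      exact h2
  have hSU : Sid (fun i => (a i).comp U.subtype) := by
    constructor
    · intro i j hij
      refine hS.inj (eq_of_add_zero (hzero _ ?_ ?_))
      · rw [LinearMap.add_comp]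
        show (a i).comp U.subtype + (a j).comp U.subtype = 0
        rw [show (a i).comp U.subtype = (a j).comp U.subtype from hij, add_self_zero]
      · rw [LinearMap.add_apply, hall, hall]
        decide
    · intro i j p l hij hip hil hjp hjl hpl h0
      refine hS.four i j p l hij hip hil hjp hjl hpl (hzero _ ?_ ?_)
      · rw [LinearMap.add_comp, LinearMap.add_comp, LinearMap.add_comp]
        exact h0
      · rw [LinearMap.add_apply, LinearMap.add_apply, LinearMap.add_apply, hall, hall, hall, hall]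
        decide
  have hcard : 2 * Fintype.card U = Fintype.card V := by
    have h2 : Fintype.card V = Fintype.card (U ⊕ U) := by
      refine (Fintype.card_congr ?_).symm
      refine Equiv.ofBijective (Sum.elim (fun u => (u : V)) fun u => (u : V) + c0) ⟨?_, ?_⟩
      · rintro (u | u) (v | v) h
        · exact congrArg _ (Subtype.ext h)
        · exfalso
          have h3 : (u : V) = v + c0 := h
          have h4 := congrArg (a i0) h3
          rw [map_add, show a i0 (u : V) = 0 from u.2, show a i0 (v : V) = 0 from v.2, hall] at h4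
          exact absurd h4 (by decide)
        · exfalso
          have h3 : (u : V) + c0 = v := h
          have h4 := congrArg (a i0) h3
          rw [map_add, show a i0 (u : V) = 0 from u.2, show a i0 (v : V) = 0 from v.2, hall] at h4
          exact absurd h4 (by decide)
        · have h3 : (u : V) + c0 = v + c0 := h
          exact congrArg _ (Subtype.ext (add_right_cancel h3))
      · intro x
        rcases hdec x with h | h
        · exact ⟨Sum.inl ⟨x, h⟩, rfl⟩
        · exact ⟨Sum.inr ⟨x + c0, h⟩, add_add_cancel' x c0⟩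
    rw [h2, Fintype.card_sum]
    ring
  exact no_sidon (by omega) hn (hcard.trans hV) hSU

end Pool.Agent.K7.H42.KP
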