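import Pool.Agent.K7.H42.KP.Sidon

/-!
# No linear code has the parameters of the Preparata codes
-/

set_option autoImplicit false

namespace Pool.Agent.K7.H42.KP

open Finset Module

theorem exists_sub {E : Type*} [AddCommGroup E] [Module (ZMod 2) E] [Finite E]
    (C : Submodule (ZMod 2) E) {r : ℕ} (hr : r ≤ finrank (ZMod 2) C) :
    ∃ C' ≤ C, finrank (ZMod 2) C' = r := by
  obtain ⟨f, hf⟩ := exists_linearIndependent_of_le_finrank hr
  refine ⟨Submodule.span (ZMod 2) (Set.range fun i => (f i : E)), ?_, ?_⟩
  · rw [Submodule.span_le]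
    rintro _ ⟨i, rfl⟩
    exact (f i).2
  · have h1 : LinearIndependent (ZMod 2) fun i => (f i : E) :=
      hf.map' C.subtype (Submodule.ker_subtype C)
    rw [finrank_span_eq_card h1, Fintype.card_fin]

theorem nat_card_eq {E : Type*} [AddCommGroup E] [Module (ZMod 2) E] [Finite E] :
    Nat.card E = 2 ^ finrank (ZMod 2) E := by
  rw [Module.natCard_eq_pow_finrank (K := ZMod 2)]
  simp

theorem four_mul_lt {k : ℕ} (hk : 2 ≤ k) : 4 * k + 1 ≤ 4 ^ k := by
  induction k, hk using Nat.le_induction with
  | base => norm_num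
  | succ k hk ih => rw [pow_succ]; omega

theorem prep {n : ℕ} (C : Submodule (ZMod 2) (Fin n → ZMod 2))
    (hC : ∀ x ∈ C, ∀ y ∈ C, x ≠ y → 6 ≤ hammingDist x y) {k : ℕ} (hk : 2 ≤ k) (hn : n = 4 ^ k)
    (hdim : n ≤ finrank (ZMod 2) C + 4 * k) : False := by
  classical
  have hn4 : 4 * k + 1 ≤ n := hn ▸ four_mul_lt hk
  obtain ⟨C', hC', hr⟩ := exists_sub C (show n - 4 * k ≤ finrank (ZMod 2) C by omega)
  have hmin : ∀ c ∈ C', (univ.filter fun i => c i ≠ 0).card ≤ 5 → c = 0 := by
    intro c hc h5
    by_contra h0
    have h1 := hC c (hC' hc) 0 (zero_mem _) h0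
    rw [hammingDist_zero_right] at h1
    have h2 : hammingNorm c = (univ.filter fun i => c i ≠ 0).card := rfl
    omega
  let i0 : Fin n := ⟨0, by omega⟩
  let e : Fin n → (Fin n → ZMod 2) := fun i => Pi.single i 1
  have e_ne : ∀ i j, j ≠ i → e i j = 0 := fun i j h => Pi.single_eq_of_ne h _
  let D := C' ⊔ Submodule.span (ZMod 2) {e i0}
  -- membership in `D`
  have hD : ∀ (S : Finset (Fin n)) (v : Fin n → ZMod 2), S.card ≤ 4 → (∀ i ∉ S, v i = 0) →
      v ∈ D → ∀ i ≠ i0, v i = 0 := by
    intro S v hS hv hvD i hi
    obtain ⟨c, hc, w, hw, hcw⟩ := Submodule.mem_sup.1 hvD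
    obtain ⟨t, rfl⟩ := Submodule.mem_span_singleton.1 hw
    have h1 : c = 0 := by
      refine hmin c hc ?_
      calc _ ≤ (insert i0 S).card := by
            refine Finset.card_le_card fun j hj => ?_
            by_contra hjS
            rw [Finset.mem_insert, not_or] at hjS
            have h2 := congrFun hcw j
            rw [hv j hjS.2, Pi.add_apply, Pi.smul_apply, e_ne _ _ hjS.1, smul_zero,
              add_zero] at h2
            exact (Finset.mem_filter.1 hj).2 h2
        _ ≤ 5 := (Finset.card_insert_le _ _).trans (by omega)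
    rw [← hcw, h1, zero_add, Pi.smul_apply, e_ne _ _ hi, smul_zero]
  have he : e i0 ∉ C' := by
    intro hc
    have h1 : e i0 = 0 := by
      refine hmin _ hc ?_
      calc _ ≤ ({i0} : Finset (Fin n)).card := by
            refine Finset.card_le_card fun j hj => ?_
            by_contra hjS
            rw [Finset.mem_singleton] at hjS
            exact (Finset.mem_filter.1 hj).2 (e_ne _ _ hjS)
        _ ≤ 5 := by simp
    have h2 := congrFun h1 i0
    simp [e] at h2
  have hfin : finrank (ZMod 2) D = n - 4 * k + 1 := by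
    have h1 : C' ⊓ Submodule.span (ZMod 2) {e i0} = ⊥ := by
      rw [eq_bot_iff]
      rintro x ⟨hx1, hx2⟩
      obtain ⟨t, rfl⟩ := Submodule.mem_span_singleton.1 hx2
      rcases zmod2_cases t with rfl | rfl
      · simp
      · rw [one_smul] at hx1
        exact absurd hx1 he
    have h2 := Submodule.finrank_sup_add_finrank_inf_eq C' (Submodule.span (ZMod 2) {e i0})
    have h3 : e i0 ≠ 0 := fun h => he (h ▸ zero_mem _)
    rw [h1, finrank_bot, add_zero, hr, finrank_span_singleton h3] at h2
    exact h2
  let W := (Fin n → ZMod 2) ⧸ D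
  have hW : finrank (ZMod 2) W = 4 * k - 1 := by
    have h1 := Submodule.finrank_quotient_add_finrank D
    rw [hfin, Module.finrank_fin_fun] at h1
    show finrank (ZMod 2) ((Fin n → ZMod 2) ⧸ D) = _
    omega
  let V := Dual (ZMod 2) W
  have : Finite W := Quotient.finite _
  have : Fintype W := Fintype.ofFinite W
  have hV : Fintype.card V = 2 ^ (4 * k - 1) := by
    have h1 : Fintype.card V = Fintype.card W := card_dual
    rw [h1, ← Nat.card_eq_fintype_card, nat_card_eq, hW]
  let a : Fin n → Dual (ZMod 2) V := fun i => Module.Dual.eval (ZMod 2) W (D.mkQ (e i))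
  have heval : ∀ w : W, Module.Dual.eval (ZMod 2) W w = 0 → w = 0 := by
    intro w h2
    exact (Module.forall_dual_apply_eq_zero_iff (ZMod 2) w).1 fun φ => by
      have := LinearMap.congr_fun h2 φ
      simpa using this
  have hS : Sid a := by
    constructor
    · intro i j hij
      by_contra hne
      have h1 : Module.Dual.eval (ZMod 2) W (D.mkQ (e i + e j)) = 0 := by
        rw [map_add, map_add]
        show a i + a j = 0
        rw [hij, add_self_zero]
      have h2 := (Submodule.Quotient.mk_eq_zero D).1 (heval _ h1)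
      have h3 := hD {i, j} _ (Finset.card_le_two.trans (by norm_num)) (fun l hl => by
        simp only [Finset.mem_insert, Finset.mem_singleton, not_or] at hl
        simp [e, hl.1, hl.2]) h2
      by_cases hi : i = i0
      · have := h3 j (fun h => hne (hi.trans h.symm))
        simp [e, Ne.symm hne] at this
      · have := h3 i hi
        simp [e, hne] at this
    · intro i j p l hij hip hil hjp hjl hpl h0
      have h1 : Module.Dual.eval (ZMod 2) W (D.mkQ (e i + e j + e p + e l)) = 0 := by
        rw [map_add, map_add, map_add, map_add, map_add, map_add]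
        exact h0
      have h2 := (Submodule.Quotient.mk_eq_zero D).1 (heval _ h1)
      have h3 := hD {i, j, p, l} _ Finset.card_le_four (fun q hq => by
        simp only [Finset.mem_insert, Finset.mem_singleton, not_or] at hq
        simp [e, hq.1, hq.2.1, hq.2.2.1, hq.2.2.2]) h2
      by_cases hi : i = i0
      · have := h3 j (fun h => hij (hi.trans h.symm))
        simp [e, hij.symm, hjp, hjl] at this
      · have := h3 i hi
        simp [e, hij, hip, hil] at this
  refine no_sidon hk (by rw [Fintype.card_fin, hn]) ?_ hS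
  rw [hV, Fintype.card_fin, hn, ← pow_succ', show 4 * k - 1 + 1 = 2 * k * 2 by omega, pow_mul,
    pow_mul]
  norm_num

end Pool.Agent.K7.H42.KP
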