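import Pool.Agent.K7.H42.KP.Core

/-!
# Sidon sets with the parameters of a linear Preparata code do not exist
-/

set_option autoImplicit false

namespace Pool.Agent.K7.H42.KP

open Finset Module

variable {V : Type*} [AddCommGroup V] [Module (ZMod 2) V] [Fintype V]
variable {ι : Type*} [Fintype ι]

/-- the family is injective, and no four distinct members have sum zero -/
structure Sid (a : ι → Dual (ZMod 2) V) : Prop where
  inj : Function.Injective a
  four : ∀ i j k l, i ≠ j → i ≠ k → i ≠ l → j ≠ k → j ≠ l → k ≠ l → a i + a j + a k + a l ≠ 0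

variable {a : ι → Dual (ZMod 2) V}

theorem Sid.r2_zero (h : Sid a) : r2 a 0 = Fintype.card ι := by
  classical
  refine le_antisymm ?_ (r2_zero_ge a)
  unfold r2
  calc _ ≤ ((univ : Finset ι).image fun i => (i, i)).card := by
        refine Finset.card_le_card fun p hp => ?_
        have h1 := (Finset.mem_filter.1 hp).2
        have h2 : p.1 = p.2 := h.inj (eq_of_add_zero h1)
        refine Finset.mem_image.2 ⟨p.1, Finset.mem_univ _, Prod.ext rfl h2⟩
    _ ≤ _ := Finset.card_image_le

theorem Sid.r2_le (h : Sid a) {φ : Dual (ZMod 2) V} (hφ : φ ≠ 0) : r2 a φ ≤ 2 := by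
  classical
  unfold r2
  rcases Finset.eq_empty_or_nonempty (univ.filter fun p : ι × ι => a p.1 + a p.2 = φ) with h0 | h0
  · rw [h0]
    simp
  · obtain ⟨⟨i, j⟩, hij⟩ := h0
    have h1 : a i + a j = φ := (Finset.mem_filter.1 hij).2
    have hne : i ≠ j := by
      rintro rfl
      exact hφ (h1.symm.trans (add_self_zero _))
    calc _ ≤ ({(i, j), (j, i)} : Finset (ι × ι)).card := by
          refine Finset.card_le_card fun p hp => ?_
          obtain ⟨k, l⟩ := p
          have h2 : a k + a l = φ := (Finset.mem_filter.1 hp).2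
          have hkl : k ≠ l := by
            rintro rfl
            exact hφ (h2.symm.trans (add_self_zero _))
          have h3 : a i + a j = a k + a l := h1.trans h2.symm
          rw [Finset.mem_insert, Finset.mem_singleton]
          by_cases hik : i = k
          · subst hik
            left
            rw [h.inj (add_left_cancel h3)]
          by_cases hil : i = l
          · subst hil
            right
            rw [add_comm (a k)] at h3
            rw [h.inj (add_left_cancel h3)]
          by_cases hjk : j = k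
          · subst hjk
            right
            rw [add_comm (a i)] at h3
            rw [h.inj (add_left_cancel h3)]
          by_cases hjl : j = l
          · subst hjl
            left
            rw [h.inj (add_right_cancel h3)]
          exfalso
          refine h.four i j k l hne hik hil hjk hjl hkl ?_
          rw [h3, add_assoc, add_self_zero]
      _ ≤ 2 := Finset.card_le_two

theorem Sid.r2_cases (h : Sid a) {φ : Dual (ZMod 2) V} (hφ : φ ≠ 0) : r2 a φ = 0 ∨ r2 a φ = 2 := by
  have h1 := h.r2_le hφ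
  obtain ⟨k, hk⟩ := r2_even a hφ
  omega

open scoped Classical in
/-- how often `φ` occurs in the family -/
noncomputable def mult (a : ι → Dual (ZMod 2) V) (φ : Dual (ZMod 2) V) : ℕ :=
  (univ.filter fun i => a i = φ).card

theorem sum_mult (x : V) : ∑ φ, (mult a φ : ℤ) * sg (φ x) = T a x := by
  classical
  rw [T, ← Finset.sum_fiberwise univ a]
  refine Finset.sum_congr rfl fun φ _ => ?_
  rw [Finset.sum_congr rfl (g := fun _ => sg (φ x)), Finset.sum_const, nsmul_eq_mul]
  · unfold mult
    congr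
  · intro p hp
    rw [(Finset.mem_filter.1 hp).2]

theorem Sid.r3_le (h : Sid a) (hn : Fintype.card ι % 3 = 1) (φ : Dual (ZMod 2) V) :
    r3 a φ ≤ 2 * (Fintype.card ι - 1) + Fintype.card ι * mult a φ := by
  classical
  by_cases hφ : ∀ i, a i ≠ φ
  · have h0 : mult a φ = 0 := by
      unfold mult
      rw [Finset.card_eq_zero, Finset.filter_eq_empty_iff]
      intro i _
      exact hφ i
    rw [h0, mul_zero, add_zero]
    have hne : ∀ i, φ + a i ≠ 0 := fun i hi => hφ i (eq_of_add_zero hi).symm
    have h1 : r3 a φ ≤ 2 * Fintype.card ι := by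
      unfold r3
      calc ∑ i, r2 a (φ + a i) ≤ ∑ _i : ι, 2 := Finset.sum_le_sum fun i _ => h.r2_le (hne i)
        _ = 2 * Fintype.card ι := by simp [mul_comm]
    have h2 : 3 ∣ r3 a φ := r3_dvd a hφ
    have h3 : 2 ∣ r3 a φ := Finset.dvd_sum fun i _ => (r2_even a (hne i)).two_dvd
    omega
  · push Not at hφ
    obtain ⟨l, rfl⟩ := hφ
    have h1 : 1 ≤ mult a (a l) := by
      unfold mult
      rw [Nat.one_le_iff_ne_zero, Ne, Finset.card_eq_zero, ← Ne, ← Finset.nonempty_iff_ne_empty]
      exact ⟨l, by simp⟩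
    have h2 : r3 a (a l) ≤ Fintype.card ι + 2 * (Fintype.card ι - 1) := by
      unfold r3
      rw [← Finset.add_sum_erase univ _ (Finset.mem_univ l), add_self_zero, h.r2_zero]
      refine Nat.add_le_add_left ?_ _
      calc ∑ i ∈ univ.erase l, r2 a (a l + a i) ≤ ∑ _i ∈ univ.erase l, 2 := by
            refine Finset.sum_le_sum fun i hi => h.r2_le fun hc => ?_
            exact (Finset.ne_of_mem_erase hi) (h.inj (eq_of_add_zero hc)).symm
        _ = 2 * (Fintype.card ι - 1) := by
            rw [Finset.sum_const, Finset.card_erase_of_mem (Finset.mem_univ l), Finset.card_univ,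
              smul_eq_mul, mul_comm]
    have h3 : Fintype.card ι * 1 ≤ Fintype.card ι * mult a (a l) := Nat.mul_le_mul_left _ h1
    omega

/-- the cube of the sum of signs -/
theorem Sid.T_cube_eq (h : Sid a) (hn : Fintype.card ι % 3 = 1)
    (hV : 2 * Fintype.card V = Fintype.card ι ^ 2) {x : V} (hx : x ≠ 0) :
    T a x ^ 3 = Fintype.card ι * T a x := by
  classical
  set n := Fintype.card ι with hn'
  have hn1 : 1 ≤ n := by omega
  have hm : ∑ φ, (mult a φ : ℤ) = n := by
    have := sum_mult (a := a) (0 : V)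
    rw [T_zero] at this
    simpa [sg] using this
  have hle : ∀ φ ∈ (univ : Finset (Dual (ZMod 2) V)),
      (r3 a φ : ℤ) ≤ 2 * ((n : ℤ) - 1) + n * mult a φ := by
    intro φ _
    have := h.r3_le hn φ
    have h2 : (r3 a φ : ℤ) ≤ ((2 * (n - 1) + n * mult a φ : ℕ) : ℤ) := by exact_mod_cast this
    push_cast [Nat.cast_sub hn1] at h2
    exact h2
  have hsum : ∑ φ, (r3 a φ : ℤ) = ∑ φ : Dual (ZMod 2) V, (2 * ((n : ℤ) - 1) + n * mult a φ) := by
    rw [sum_r3, Finset.sum_add_distrib, Finset.sum_const, ← Finset.mul_sum, hm, Finset.card_univ,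
      card_dual, nsmul_eq_mul]
    have : (2 * Fintype.card V : ℤ) = (n : ℤ) ^ 2 := by exact_mod_cast hV
    rw [← hn']
    linear_combination (1 - (n : ℤ)) * this
  have heq := (Finset.sum_eq_sum_iff_of_le hle).1 hsum
  rw [T_cube, Finset.sum_congr rfl fun φ hφ => by rw [heq φ hφ]]
  simp only [add_mul, Finset.sum_add_distrib]
  rw [← Finset.mul_sum, sum_sg_dual hx, mul_zero, zero_add]
  simp only [mul_assoc]
  rw [← Finset.mul_sum, sum_mult]

open scoped Classical in
/-- zero and the vectors which are not a sum of two members -/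
noncomputable def miss (a : ι → Dual (ZMod 2) V) : Finset (Dual (ZMod 2) V) :=
  univ.filter fun φ => φ = 0 ∨ r2 a φ = 0

theorem Sid.miss_hat (h : Sid a) (x : V) :
    ∑ φ : Dual (ZMod 2) V, 2 * sg (φ x) - T a x ^ 2 =
      2 * ∑ φ ∈ miss a, sg (φ x) - Fintype.card ι := by
  classical
  have h1 : ∀ φ : Dual (ZMod 2) V, 2 * sg (φ x) - (r2 a φ : ℤ) * sg (φ x) =
      2 * (if φ = 0 ∨ r2 a φ = 0 then sg (φ x) else 0) - (if φ = 0 then (Fintype.card ι : ℤ) else 0) := by
    intro φ
    by_cases h0 : φ = 0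
    · subst h0
      rw [if_pos (Or.inl rfl), if_pos rfl, h.r2_zero]
      simp [sg]
    · rw [if_neg h0]
      rcases h.r2_cases h0 with h2 | h2
      · rw [if_pos (Or.inr h2), h2]
        simp
      · rw [if_neg, h2]
        · push_cast
          ring
        · push Not
          exact ⟨h0, by omega⟩
  rw [T_sq, ← Finset.sum_sub_distrib, Finset.sum_congr rfl fun φ _ => h1 φ, Finset.sum_sub_distrib,
    ← Finset.mul_sum, miss, Finset.sum_filter]
  simp

theorem Sid.card_miss (h : Sid a) (hV : 2 * Fintype.card V = Fintype.card ι ^ 2) :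
    2 * (miss a).card = Fintype.card ι := by
  have h1 := h.miss_hat (0 : V)
  rw [T_zero] at h1
  have h2 : (2 * Fintype.card V : ℤ) = (Fintype.card ι : ℤ) ^ 2 := by exact_mod_cast hV
  simp only [map_zero, sg_zero, mul_one, Finset.sum_const, Finset.card_univ, card_dual,
    nsmul_eq_mul] at h1
  have h3 : (2 * (miss a).card : ℤ) = Fintype.card ι := by linarith
  exact_mod_cast h3

/-- the vectors orthogonal to `miss a` -/
def hyp (a : ι → Dual (ZMod 2) V) : Submodule (ZMod 2) V where
  carrier := {x | ∀ φ ∈ miss a, φ x = 0}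
  add_mem' := by
    intro x y hx hy φ hφ
    rw [map_add, hx φ hφ, hy φ hφ, add_zero]
  zero_mem' := fun φ _ => map_zero φ
  smul_mem' := by
    intro c x hx φ hφ
    rw [map_smul, hx φ hφ, smul_zero]

theorem mem_hyp {x : V} : x ∈ hyp a ↔ ∀ φ ∈ miss a, φ x = 0 := Iff.rfl

theorem Sid.T_hyp (h : Sid a) (hV : 2 * Fintype.card V = Fintype.card ι ^ 2) {x : V}
    (hx : x ≠ 0) (hxH : x ∈ hyp a) : T a x = 0 := by
  have h1 := h.miss_hat x
  rw [← Finset.mul_sum, sum_sg_dual hx] at h1
  have h2 : ∑ φ ∈ miss a, sg (φ x) = (miss a).card := by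
    rw [Finset.sum_congr rfl (g := fun _ => (1 : ℤ)) fun φ hφ => by rw [mem_hyp.1 hxH φ hφ]; rfl]
    simp
  have h3 : (2 * (miss a).card : ℤ) = Fintype.card ι := by exact_mod_cast h.card_miss hV
  rw [h2] at h1
  have h4 : T a x ^ 2 = 0 := by linarith
  exact pow_eq_zero_iff (two_ne_zero) |>.1 h4

theorem Sid.T_not_hyp (h : Sid a) (hn : Fintype.card ι % 3 = 1)
    (hV : 2 * Fintype.card V = Fintype.card ι ^ 2) {x : V}
    (hxH : x ∉ hyp a) : T a x ^ 2 = Fintype.card ι := by
  have hx : x ≠ 0 := by
    rintro rfl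
    exact hxH (zero_mem _)
  have h1 := h.miss_hat x
  rw [← Finset.mul_sum, sum_sg_dual hx] at h1
  have h2 : ∑ φ ∈ miss a, sg (φ x) < (miss a).card := by
    rw [mem_hyp] at hxH
    push Not at hxH
    obtain ⟨φ, hφ, h0⟩ := hxH
    rw [Finset.card_eq_sum_ones]
    push_cast
    refine Finset.sum_lt_sum (fun ψ _ => ?_) ⟨φ, hφ, ?_⟩
    · unfold sg
      split_ifs <;> norm_num
    · simp [sg, h0]
  have h3 : (2 * (miss a).card : ℤ) = Fintype.card ι := by exact_mod_cast h.card_miss hV
  have h4 : T a x ^ 2 ≠ 0 := by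
    intro h5
    linarith
  have h5 : T a x ≠ 0 := fun h6 => h4 (by rw [h6]; norm_num)
  have h6 := h.T_cube_eq hn hV hx
  have h7 : T a x * T a x ^ 2 = T a x * Fintype.card ι := by linear_combination h6
  exact mul_left_cancel₀ h5 h7

theorem sum_T_sq (h : Sid a) : ∑ x, T a x ^ 2 = (Fintype.card V : ℤ) * Fintype.card ι := by
  classical
  rw [Finset.sum_congr rfl fun x _ => T_sq a x, Finset.sum_comm]
  have h1 : ∀ φ : Dual (ZMod 2) V, ∑ x : V, (r2 a φ : ℤ) * sg (φ x) =
      if φ = 0 then (Fintype.card V : ℤ) * Fintype.card ι else 0 := by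
    intro φ
    rw [← Finset.mul_sum, sum_sg]
    by_cases h0 : φ = 0
    · subst h0
      rw [if_pos rfl, if_pos rfl, h.r2_zero, mul_comm]
    · rw [if_neg h0, if_neg h0, mul_zero]
  rw [Finset.sum_congr rfl fun φ _ => h1 φ]
  simp

theorem Sid.card_hyp (h : Sid a) (hn : Fintype.card ι % 3 = 1)
    (hV : 2 * Fintype.card V = Fintype.card ι ^ 2) :
    Nat.card (hyp a) = Fintype.card ι := by
  classical
  have hpos : 0 < Fintype.card ι := by omega
  have h1 := sum_T_sq h
  have h2 : ∀ x : V, T a x ^ 2 = (Fintype.card ι : ℤ) - (if x ∈ hyp a then (Fintype.card ι : ℤ) else 0)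
      + (if x = 0 then (Fintype.card ι : ℤ) ^ 2 else 0) := by
    intro x
    by_cases hx : x = 0
    · subst hx
      rw [if_pos (zero_mem _), if_pos rfl, T_zero]
      ring
    · rw [if_neg hx]
      by_cases hxH : x ∈ hyp a
      · rw [if_pos hxH, h.T_hyp hV hx hxH]
        ring
      · rw [if_neg hxH, h.T_not_hyp hn hV hxH]
        ring
  rw [Finset.sum_congr rfl fun x _ => h2 x, Finset.sum_add_distrib, Finset.sum_sub_distrib,
    ← Finset.sum_filter, Finset.sum_const, Finset.sum_const, Finset.card_univ] at h1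
  simp only [Finset.sum_ite_eq', Finset.mem_univ, if_true, nsmul_eq_mul] at h1
  have h3 : (((univ.filter fun x => x ∈ hyp a).card : ℤ) - Fintype.card ι) * Fintype.card ι = 0 := by
    linear_combination -h1
  have h4 : ((univ.filter fun x => x ∈ hyp a).card : ℤ) = Fintype.card ι := by
    rcases mul_eq_zero.1 h3 with h5 | h5
    · linarith
    · exfalso
      have : (0 : ℤ) < Fintype.card ι := by exact_mod_cast hpos
      linarith
  rw [Nat.card_eq_fintype_card, Fintype.card_subtype]
  exact_mod_cast h4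

/-- **There is no Sidon set of `4 ^ k` elements in a space of `4 ^ (2 k) / 2` elements** (`k ≥ 2`). -/
theorem no_sidon {k : ℕ} (hk : 2 ≤ k) (hι : Fintype.card ι = 4 ^ k)
    (hV : 2 * Fintype.card V = Fintype.card ι ^ 2) (h : Sid a) : False := by
  classical
  have hn : Fintype.card ι % 3 = 1 := by
    rw [hι, Nat.pow_mod]
    norm_num
  obtain ⟨M, hM⟩ := Submodule.exists_isCompl (hyp a)
  have hcard : Nat.card (hyp a) * Nat.card M = Fintype.card V := by
    rw [← Nat.card_prod, ← Nat.card_eq_fintype_card]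
    exact Nat.card_congr (Submodule.prodEquivOfIsCompl _ _ hM).toEquiv
  rw [h.card_hyp hn hV] at hcard
  obtain ⟨j, hj⟩ : ∃ j, k = j + 2 := ⟨k - 2, by omega⟩
  -- `q = 2 ^ k`
  have hq : (4 : ℕ) ^ k = 2 ^ k * 2 ^ k := by
    rw [← mul_pow, show (2 : ℕ) * 2 = 4 from rfl]
  have hMc : Nat.card M * 2 = 4 ^ k := by
    have h1 : Fintype.card ι * (Nat.card M * 2) = Fintype.card ι * Fintype.card ι := by
      calc Fintype.card ι * (Nat.card M * 2) = 2 * (Fintype.card ι * Nat.card M) := by ring
        _ = 2 * Fintype.card V := by rw [hcard]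
        _ = _ := by rw [hV]; ring
    have h2 : 0 < Fintype.card ι := by omega
    rw [← hι]
    exact Nat.eq_of_mul_eq_mul_left h2 h1
  have hMc' : Nat.card M = 2 * (2 ^ j * 4) * (2 ^ j) := by
    have : Nat.card M * 2 = (2 * (2 ^ j * 4) * (2 ^ j)) * 2 := by
      rw [hMc, hq, hj, pow_add]
      ring
    exact Nat.eq_of_mul_eq_mul_right (by norm_num) this
  have : Fintype M := Fintype.ofFinite M
  -- the sum over `M`
  have hS : ∑ x : M, T a (x : V) = (Nat.card M : ℤ) *
      (univ.filter fun i => (a i).comp M.subtype = 0).card := by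
    unfold T
    rw [Finset.sum_comm]
    have h1 : ∀ i, ∑ x : M, sg (a i (x : V)) =
        if (a i).comp M.subtype = 0 then (Fintype.card M : ℤ) else 0 := by
      intro i
      rw [← sum_sg ((a i).comp M.subtype)]
      rfl
    rw [Finset.sum_congr rfl fun i _ => h1 i, ← Finset.sum_filter, Finset.sum_const, nsmul_eq_mul,
      Nat.card_eq_fintype_card, mul_comm]
  -- the values on `M`
  have hval : ∀ x : M, x ≠ 0 → ∃ e : ℤ, T a (x : V) = 2 ^ k * (2 * e + 1) := by
    intro x hx
    have hxH : (x : V) ∉ hyp a := by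
      intro hc
      have := hM.disjoint.le_bot ⟨hc, x.2⟩
      exact hx (Subtype.ext ((Submodule.mem_bot _).1 this))
    have h1 := h.T_not_hyp hn hV hxH
    have h2 : T a (x : V) ^ 2 = ((2 : ℤ) ^ k) ^ 2 := by
      rw [h1, hι]
      push_cast
      rw [← pow_mul, mul_comm k 2, pow_mul]
      norm_num
    rcases sq_eq_sq_iff_eq_or_eq_neg.1 h2 with h3 | h3
    · exact ⟨0, by rw [h3]; ring⟩
    · exact ⟨-1, by rw [h3]; ring⟩
  choose! e he using hval
  rw [← Finset.add_sum_erase univ _ (Finset.mem_univ (0 : M))] at hS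
  rw [Finset.sum_congr rfl fun x hx => he x (Finset.ne_of_mem_erase hx), ← Finset.mul_sum,
    Finset.sum_add_distrib, ← Finset.mul_sum, Finset.sum_const,
    Finset.card_erase_of_mem (Finset.mem_univ _), Finset.card_univ] at hS
  have h0 : T a ((0 : M) : V) = 2 ^ k * 2 ^ k := by
    rw [Submodule.coe_zero, T_zero, hι]
    exact_mod_cast hq
  rw [h0, ← Nat.card_eq_fintype_card, hMc', hj] at hS
  generalize (univ.filter fun i => (a i).comp M.subtype = 0).card = c at hS
  generalize (∑ i ∈ univ.erase (0 : M), e i) = E at hS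
  have hpos : 1 ≤ 2 * (2 ^ j * 4) * 2 ^ j := by
    have : 1 ≤ 2 ^ j := Nat.one_le_two_pow
    nlinarith
  rw [nsmul_eq_mul, Nat.cast_sub hpos] at hS
  push_cast at hS
  generalize hp : (2 : ℤ) ^ j = p at hS
  have hp0 : p ≠ 0 := by rw [← hp]; positivity
  have h5 : (2 : ℤ) ^ (j + 2) = 4 * p := by rw [pow_add, hp]; ring
  rw [h5] at hS
  have h6 : 4 * p * (4 * p + (2 * E + (2 * (p * 4) * p - 1) * 1)) = 4 * p * (2 * p * c) := by
    linear_combination hS
  have h7 := mul_left_cancel₀ (mul_ne_zero (by norm_num) hp0) h6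
  have h8 : 4 * p + 2 * E + 8 * (p * p) - 1 = 2 * (p * c) := by linear_combination h7
  omega

end Pool.Agent.K7.H42.KP
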